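import Pool.Agent.Work.MP_8eaa9c_co.Thr.Trans

/-!
Words over 4 letters without `a b a b`, `a < b`, spell at most 19 of the 24 orders: certified search.
-/

namespace Pool.Agent.Work.MP_8eaa9c_co.Thr

open scoped List

/-- the orders -/
def ps4 : List (List ℕ) := [[0, 1, 2, 3], [1, 0, 2, 3], [1, 2, 0, 3], [1, 2, 3, 0], [0, 2, 1, 3], [2, 0, 1, 3], [2, 1, 0, 3], [2, 1, 3, 0], [0, 2, 3, 1], [2, 0, 3, 1], [2, 3, 0, 1], [2, 3, 1, 0], [0, 1, 3, 2], [1, 0, 3, 2], [1, 3, 0, 2], [1, 3, 2, 0], [0, 3, 1, 2], [3, 0, 1, 2], [3, 1, 0, 2], [3, 1, 2, 0], [0, 3, 2, 1], [3, 0, 2, 1], [3, 2, 0, 1], [3, 2, 1, 0]]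

lemma ps4_eq : ps4 = (List.range 4).permutations' := by decide +kernel

/-- the tables -/
def D4 : Dat where
  N := 4
  F := 24
  T := 19
  L := [42255018748309880421320036625, 34670785997841408574632288270, 2301795802788349649157623520, 561965324698948434001920]
  PX := [20565, 328962, 5243424, 2236416]
  BX := [0, 8, 2176, 8945664]
  BT := [(3, 34670788064381415234939650047), (2, 1180879958872016754481), (7, 2301795939986078997464219647), (6, 78398704507061498131), (11, 2301795939986078997464219647), (10, 55340248782540369935), (15, 561965358194693985271807), (14, 19140446157615991), (19, 561965358194693985271807), (18, 13510871644958975), (23, 561965358194693985271807), (22, 844429745197055)]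

lemma ok4 : Ok D4 ps4 where
  len := by decide +kernel
  lenp := by decide +kernel
  hL := by decide +kernel
  hPX := by decide +kernel
  hBX := by decide +kernel
  hBT := by decide +kernel

/-- states that are checked separately -/
def K4 : List (ℕ × ℕ) := []

lemma goodK4 : ∀ s ∈ K4, Good D4 ps4 s := by
  intro s hs
  simp only [K4, List.mem_cons, List.not_mem_nil, or_false] at hs

lemma good4 : Good D4 ps4 (16777215, 1118481) :=
  chk_sound ok4 goodK4 8 _ _ (by decide +kernel)

theorem spell4 {L : ℕ} {w : Fin L → Fin 4}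
    (h : ¬ HasPattern w (![0, 1, 0, 1] : Fin 4 → Fin 2)) (S : Finset (Equiv.Perm (Fin 4)))
    (hS : ∀ σ ∈ S, Spells w σ) : S.card ≤ 19 :=
  spell_le ok4 ps4_eq rfl rfl (by decide +kernel) (by decide +kernel) good4 h S hS

end Pool.Agent.Work.MP_8eaa9c_co.Thr
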