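import Mathlib

/-!
A certified search: words without `a b a b`, `a < b`, spell few of a given list of targets.
-/

namespace Pool.Agent.Work.MP_8eaa9c_co.Thr

open scoped List

/-- evaluate the argument first -/
def force (x : ℕ) (f : ℕ → Bool) : Bool :=
  match x with
  | 0 => f 0
  | n + 1 => f (n + 1)

lemma force_eq (x : ℕ) (f : ℕ → Bool) : force x f = f x := by
  cases x <;> rfl

/-- number with given binary digits -/
def mkB : List Bool → ℕ
  | [] => 0
  | b :: l => Nat.bit b (mkB l)

lemma testBit_mkB (l : List Bool) (i : ℕ) : (mkB l).testBit i = l.getD i false := by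
  induction l generalizing i with
  | nil => simp [mkB]
  | cons b l ih =>
    cases i with
    | zero => simp [mkB]
    | succ i => simp [mkB, Nat.testBit_bit_succ, ih]

/-- table of a predicate `P k p`, `k ≤ N`, `p` in the list `ps` of length `F` -/
def tab (N F : ℕ) (ps : List (List ℕ)) (P : ℕ → List ℕ → Bool) : ℕ :=
  mkB ((List.range ((N + 1) * F)).map (fun j => P (j / F) (ps.getD (j % F) [])))

lemma testBit_tab {N F : ℕ} {ps : List (List ℕ)} {P : ℕ → List ℕ → Bool} {k i : ℕ} (hk : k ≤ N)
    (hi : i < F) : (tab N F ps P).testBit (k * F + i) = P k (ps.getD i []) := by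
  have h1 : k * F + i < (N + 1) * F := by
    have : k * F ≤ N * F := Nat.mul_le_mul_right _ hk
    rw [Nat.add_mul]
    omega
  have h2 : (k * F + i) / F = k := by
    rw [mul_comm, Nat.mul_add_div (by omega), Nat.div_eq_of_lt hi, Nat.add_zero]
  have h3 : (k * F + i) % F = i := by
    rw [mul_comm, Nat.mul_add_mod, Nat.mod_eq_of_lt hi]
  rw [tab, testBit_mkB, List.getD_eq_getElem _ _ (by simpa using h1)]
  simp [h2, h3]

/-- binary digit -/
def dg (G n : ℕ) : ℕ := Nat.land (Nat.shiftRight G n) 1

lemma dg_eq (G n : ℕ) : dg G n = if G.testBit n = true then 1 else 0 := by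
  have h : dg G n = G / 2 ^ n % 2 := by
    change (G >>> n) &&& 1 = _
    rw [Nat.and_one_is_mod, Nat.shiftRight_eq_div_pow]
  rw [h, Nat.testBit_eq_decide_div_mod_eq]
  split_ifs with h1
  · exact of_decide_eq_true h1
  · have h2 : ¬ G / 2 ^ n % 2 = 1 := fun h3 => h1 (decide_eq_true h3)
    omega

/-- number of digits one among the first `n` -/
def pc (G n : ℕ) : ℕ := Nat.rec 0 (fun k r => Nat.add (dg G k) r) n

lemma pc_eq (G n : ℕ) : pc G n = ((Finset.range n).filter (fun i => G.testBit i = true)).card := by
  induction n with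
  | zero => simp [pc]
  | succ n ih =>
    have e : pc G (n + 1) = dg G n + pc G n := rfl
    rw [e, ih, dg_eq, Finset.range_add_one, Finset.filter_insert]
    by_cases h : G.testBit n = true
    · rw [if_pos h, if_pos h, Finset.card_insert_of_notMem (by simp)]
      omega
    · rw [if_neg h, if_neg h, Nat.zero_add]

/-- union of the `k`-blocks, `k ≤ N` -/
def fld (F T n : ℕ) : ℕ :=
  Nat.rec T (fun k r => Nat.lor (Nat.shiftRight T (Nat.mul (Nat.succ k) F)) r) n

lemma testBit_fld {F T n i k : ℕ} (hk : k ≤ n) (h : T.testBit (k * F + i) = true) :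
    (fld F T n).testBit i = true := by
  induction n with
  | zero =>
    obtain rfl : k = 0 := by omega
    simpa [fld] using h
  | succ n ih =>
    have e : fld F T (n + 1) = (T >>> ((n + 1) * F)) ||| fld F T n := rfl
    rw [e, Nat.testBit_or]
    rcases Nat.lt_or_ge n k with h1 | h1
    · obtain rfl : k = n + 1 := by omega
      rw [Nat.testBit_shiftRight, h, Bool.true_or]
    · rw [ih h1, Bool.or_true]

/-- masks of the active constraints -/
def bad (Q : ℕ) : List (ℕ × ℕ) → ℕ
  | [] => 0
  | c :: l => cond (Nat.beq (dg Q c.1) 1) (Nat.lor c.2 (bad Q l)) (bad Q l)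

lemma testBit_bad {Q j : ℕ} {l : List (ℕ × ℕ)} (h : (bad Q l).testBit j = true) :
    ∃ c ∈ l, Q.testBit c.1 = true ∧ c.2.testBit j = true := by
  induction l with
  | nil => simp [bad] at h
  | cons c l ih =>
    have e : bad Q (c :: l) = cond (Nat.beq (dg Q c.1) 1) (c.2 ||| bad Q l) (bad Q l) := rfl
    rw [e] at h
    by_cases h1 : Q.testBit c.1 = true
    · have h0 : Nat.beq (dg Q c.1) 1 = true := by
        rw [dg_eq, if_pos h1]
        rfl
      rw [h0, cond_true, Nat.testBit_or, Bool.or_eq_true] at h
      rcases h with h | h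
      · exact ⟨c, List.mem_cons_self, h1, h⟩
      · obtain ⟨c', h2, h3⟩ := ih h
        exact ⟨c', List.mem_cons_of_mem _ h2, h3⟩
    · have h0 : Nat.beq (dg Q c.1) 1 = false := by
        rw [dg_eq, if_neg h1]
        rfl
      rw [h0, cond_false] at h
      obtain ⟨c', h2, h3⟩ := ih h
      exact ⟨c', List.mem_cons_of_mem _ h2, h3⟩

/-- data of the search: `L x` table of targets with `k`-th letter `x`; `PX x`: pattern positions with
next letter `x`; `BX x`: completed prefixes of length three with last letter `x`; `BT`: constraints -/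
structure Dat where
  N : ℕ
  F : ℕ
  T : ℕ
  L : List ℕ
  PX : List ℕ
  BX : List ℕ
  BT : List (ℕ × ℕ)

/-- upper bound for the number of targets -/
def ub (D : Dat) (E Q : ℕ) : ℕ :=
  pc (fld D.F (Nat.xor E (Nat.land E (bad Q D.BT))) D.N) D.F

/-- the upper bound is at most `D.T` -/
def ubOk (D : Dat) (E Q : ℕ) : Bool :=
  force (bad Q D.BT) (fun B => force (Nat.xor E (Nat.land E B)) (fun S =>
    force (fld D.F S D.N) (fun G => Nat.ble (pc G D.F) D.T)))

lemma ubOk_eq (D : Dat) (E Q : ℕ) : ubOk D E Q = Nat.ble (ub D E Q) D.T := by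
  rw [ubOk, force_eq, force_eq, force_eq, ub]

/-- the number of spelled targets is at most `D.T` -/
def nOk (D : Dat) (E : ℕ) : Bool :=
  force (Nat.shiftRight E (Nat.mul D.N D.F)) (fun G => Nat.ble (pc G D.F) D.T)

lemma nOk_eq (D : Dat) (E : ℕ) : nOk D E = Nat.ble (pc (E >>> (D.N * D.F)) D.F) D.T := by
  rw [nOk, force_eq]
  rfl

/-- membership in a list of states -/
def inK (E Q : ℕ) : List (ℕ × ℕ) → Bool
  | [] => false
  | s :: l => (Nat.beq s.1 E && Nat.beq s.2 Q) || inK E Q l

lemma inK_mem {E Q : ℕ} {K : List (ℕ × ℕ)} (h : inK E Q K = true) : (E, Q) ∈ K := by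
  induction K with
  | nil => exact absurd h (by simp [inK])
  | cons s l ih =>
    rw [inK, Bool.or_eq_true, Bool.and_eq_true] at h
    rcases h with ⟨h1, h2⟩ | h
    · rw [← Nat.eq_of_beq_eq_true h1, ← Nat.eq_of_beq_eq_true h2]
      exact List.mem_cons_self
    · exact List.mem_cons_of_mem _ (ih h)

/-- the search; the states in `K` are treated separately -/
def chk (D : Dat) (K : List (ℕ × ℕ)) : ℕ → ℕ → ℕ → Bool
  | 0, E, Q => inK E Q K || ubOk D E Q
  | f + 1, E, Q => inK E Q K || (ubOk D E Q || (nOk D E &&
      (List.range D.N).all (fun x => (Nat.blt 0 (Nat.land Q (D.BX.getD x 0))) ||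
        force (Nat.lor E (Nat.shiftLeft (Nat.land E (D.L.getD x 0)) D.F)) (fun E' =>
          force (Nat.lor Q (Nat.shiftLeft (Nat.land Q (D.PX.getD x 0)) 1)) (fun Q' =>
            (Nat.beq E' E && Nat.beq Q' Q) || chk D K f E' Q')))))

/-- the pairs `a < b`, as a list with the index -/
def prs (N : ℕ) : List (ℕ × ℕ) :=
  (List.range N).flatMap (fun b => (List.range b).map (fun a => (a, b)))

/-- the pattern of a pair -/
def pat (c : ℕ × ℕ) : List ℕ := [c.1, c.2, c.1, c.2]

/-- correctness of the tables -/
structure Ok (D : Dat) (ps : List (List ℕ)) : Prop where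
  len : ps.length = D.F
  lenp : ∀ p ∈ ps, p.length = D.N
  hL : ∀ x < D.N, D.L.getD x 0 = tab D.N D.F ps (fun k p => Nat.beq (p.getD k D.N) x)
  hPX : ∀ x < D.N, D.PX.getD x 0 = mkB ((List.range (4 * (prs D.N).length)).map
    (fun j => Nat.blt (j % 4) 3 && Nat.beq ((pat ((prs D.N).getD (j / 4) (0, 0))).getD (j % 4) D.N) x))
  hBX : ∀ x < D.N, D.BX.getD x 0 = mkB ((List.range (4 * (prs D.N).length)).map
    (fun j => Nat.beq (j % 4) 3 && Nat.beq ((prs D.N).getD (j / 4) (0, 0)).2 x))
  hBT : ∀ c ∈ D.BT, ∃ i < (prs D.N).length,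
    (c.1 = 4 * i + 3 ∧ c.2 = tab D.N D.F ps (fun k p =>
      (p.drop k).any (fun y => Nat.beq y ((prs D.N).getD i (0, 0)).2))) ∨
    (c.1 = 4 * i + 2 ∧ c.2 = tab D.N D.F ps (fun k p =>
      [((prs D.N).getD i (0, 0)).1, ((prs D.N).getD i (0, 0)).2].isSublist (p.drop k)))

/-- no `a b a b` with `a < b` -/
def Av (w : List ℕ) : Prop := ∀ a b, a < b → ¬ [a, b, a, b] <+ w

/-- meaning of the state of the search -/
structure Sem (D : Dat) (ps : List (List ℕ)) (w : List ℕ) (E Q : ℕ) : Prop where
  hE : ∀ i < D.F, ∀ k ≤ D.N, (ps.getD i []).take k <+ w → E.testBit (k * D.F + i) = true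
  hQ : ∀ i < (prs D.N).length, ∀ v < 4, Q.testBit (4 * i + v) = true →
    (pat ((prs D.N).getD i (0, 0))).take v <+ w

lemma getD_mem {ps : List (List ℕ)} {i : ℕ} (hi : i < ps.length) : ps.getD i [] ∈ ps := by
  rw [List.getD_eq_getElem _ _ hi]
  exact List.getElem_mem hi

lemma prs_lt {N i : ℕ} (hi : i < (prs N).length) :
    ((prs N).getD i (0, 0)).1 < ((prs N).getD i (0, 0)).2 := by
  have h : (prs N).getD i (0, 0) ∈ prs N := by
    rw [List.getD_eq_getElem _ _ hi]
    exact List.getElem_mem hi
  generalize (prs N).getD i (0, 0) = q at h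
  rw [prs, List.mem_flatMap] at h
  obtain ⟨b, _, h⟩ := h
  rw [List.mem_map] at h
  obtain ⟨a, ha, h⟩ := h
  rw [← h]
  exact List.mem_range.1 ha

lemma sem_step {D : Dat} {ps : List (List ℕ)} (ok : Ok D ps) {w : List ℕ} {E Q x : ℕ}
    (hx : x < D.N) (h : Sem D ps w E Q) :
    Sem D ps (w ++ [x]) (E ||| ((E &&& D.L.getD x 0) <<< D.F))
      (Q ||| ((Q &&& D.PX.getD x 0) <<< 1)) := by
  refine ⟨?_, ?_⟩
  · intro i hi k hk hs
    have hlen : (ps.getD i []).length = D.N := ok.lenp _ (getD_mem (by rw [ok.len]; exact hi))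
    rw [List.sublist_append_iff] at hs
    obtain ⟨l₁, l₂, e, h1, h2⟩ := hs
    rw [Nat.testBit_or, Bool.or_eq_true]
    rcases List.sublist_singleton.1 h2 with h3 | h3
    · left
      subst h3
      rw [List.append_nil] at e
      rw [← e] at h1
      exact h.hE i hi k hk h1
    · right
      subst h3
      have hkl : l₁.length + 1 = k := by
        have := congrArg List.length e
        rw [List.length_take, List.length_append, List.length_singleton, hlen] at this
        omega
      have e1 : l₁ = (ps.getD i []).take (k - 1) := by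
        have := congrArg (List.take (k - 1)) e
        rw [List.take_take, List.take_append_of_le_length (by omega),
          List.take_of_length_le (l := l₁) (by omega)] at this
        rw [← this, min_eq_left (by omega)]
      have e2 : (ps.getD i []).getD (k - 1) D.N = x := by
        have h4 : ((ps.getD i []).take k)[k - 1]? = some x := by
          rw [e, List.getElem?_append_right (by omega)]
          simp [show k - 1 - l₁.length = 0 by omega]
        rw [List.getElem?_take_of_lt (by omega)] at h4
        rw [List.getD_eq_getElem?_getD, h4]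
        rfl
      rw [Nat.testBit_shiftLeft, Bool.and_eq_true, decide_eq_true_iff]
      have hkF : k * D.F + i - D.F = (k - 1) * D.F + i := by
        obtain ⟨k', rfl⟩ : ∃ k', k = k' + 1 := ⟨k - 1, by omega⟩
        rw [Nat.add_mul, Nat.add_sub_cancel]
        omega
      have hF : D.F ≤ k * D.F + i := by
        have : 1 * D.F ≤ k * D.F := Nat.mul_le_mul_right _ (by omega)
        omega
      refine ⟨hF, ?_⟩
      rw [hkF, Nat.testBit_and, Bool.and_eq_true]
      refine ⟨h.hE i hi (k - 1) (by omega) (by rw [← e1]; exact h1), ?_⟩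
      rw [ok.hL x hx, testBit_tab (by omega) hi, e2]
      exact Nat.beq_refl x
  · intro i hi v hv hb
    rw [Nat.testBit_or, Bool.or_eq_true] at hb
    rcases hb with hb | hb
    · exact (h.hQ i hi v hv hb).trans (List.sublist_append_left _ _)
    · rw [Nat.testBit_shiftLeft, Bool.and_eq_true, decide_eq_true_iff] at hb
      obtain ⟨h1, hb⟩ := hb
      rw [Nat.testBit_and, Bool.and_eq_true] at hb
      obtain ⟨hb1, hb2⟩ := hb
      rw [ok.hPX x hx, testBit_mkB] at hb2
      have hlt : 4 * i + v - 1 < 4 * (prs D.N).length := by omega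
      rw [List.getD_eq_getElem _ _ (by simpa using hlt)] at hb2
      rw [List.getElem_map, List.getElem_range, Bool.and_eq_true] at hb2
      obtain ⟨hb2, hb3⟩ := hb2
      have hb2' : (4 * i + v - 1) % 4 < 3 := by
        simpa [Nat.blt_eq] using hb2
      have hv1 : 1 ≤ v := by omega
      have e1 : (4 * i + v - 1) / 4 = i := by omega
      have e2 : (4 * i + v - 1) % 4 = v - 1 := by omega
      rw [e1, e2] at hb3
      have hb3' := Nat.eq_of_beq_eq_true hb3
      have e3 : 4 * i + v - 1 = 4 * i + (v - 1) := by omega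
      rw [e3] at hb1
      have h4 := h.hQ i hi (v - 1) (by omega) hb1
      have h5 : (pat ((prs D.N).getD i (0, 0))).take v =
          (pat ((prs D.N).getD i (0, 0))).take (v - 1) ++ [x] := by
        obtain ⟨v', rfl⟩ : ∃ v', v = v' + 1 := ⟨v - 1, by omega⟩
        have hv' : v' < (pat ((prs D.N).getD i (0, 0))).length := by
          simp only [pat, List.length_cons, List.length_nil]
          omega
        rw [Nat.add_sub_cancel] at hb3' ⊢
        rw [List.take_succ_eq_append_getElem hv', ← hb3', List.getD_eq_getElem _ _ hv']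
      rw [h5]
      exact List.Sublist.append h4 (List.Sublist.refl _)

lemma ub_sound {D : Dat} {ps : List (List ℕ)} (ok : Ok D ps) {w z : List ℕ} {E Q : ℕ}
    (h : Sem D ps w E Q) (hav : Av (w ++ z)) :
    ((Finset.range D.F).filter (fun i => ps.getD i [] <+ w ++ z)).card ≤ ub D E Q := by
  rw [ub, pc_eq]
  apply Finset.card_le_card
  intro i hi
  rw [Finset.mem_filter, Finset.mem_range] at hi ⊢
  obtain ⟨hi, hs⟩ := hi
  refine ⟨hi, ?_⟩
  have hlen : (ps.getD i []).length = D.N := ok.lenp _ (getD_mem (by rw [ok.len]; exact hi))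
  rw [List.sublist_append_iff] at hs
  obtain ⟨l₁, l₂, e, h1, h2⟩ := hs
  have hkN : l₁.length ≤ D.N := by
    rw [← hlen, e, List.length_append]
    omega
  have e1 : (ps.getD i []).take l₁.length = l₁ := by
    rw [e, List.take_left]
  have e2 : (ps.getD i []).drop l₁.length = l₂ := by
    rw [e, List.drop_left]
  refine testBit_fld hkN ?_
  have hE := h.hE i hi l₁.length hkN (by rw [e1]; exact h1)
  change (E ^^^ (E &&& bad Q D.BT)).testBit (l₁.length * D.F + i) = true
  rw [Nat.testBit_xor, Nat.testBit_and, hE, Bool.true_and]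
  by_contra hb
  have hb' : (bad Q D.BT).testBit (l₁.length * D.F + i) = true := by
    cases hh : (bad Q D.BT).testBit (l₁.length * D.F + i)
    · rw [hh] at hb
      exact absurd rfl hb
    · rfl
  obtain ⟨c, hc, hc1, hc2⟩ := testBit_bad hb'
  obtain ⟨j, hj, hor⟩ := ok.hBT c hc
  have hab := prs_lt hj
  set a := ((prs D.N).getD j (0, 0)).1 with ha
  set b := ((prs D.N).getD j (0, 0)).2 with hbd
  rcases hor with ⟨h3, h4⟩ | ⟨h3, h4⟩
  · rw [h3] at hc1
    have h5 := h.hQ j hj 3 (by omega) hc1
    rw [h4, testBit_tab hkN hi, e2, List.any_eq_true] at hc2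
    obtain ⟨y, hy, hy2⟩ := hc2
    have hy3 := Nat.eq_of_beq_eq_true hy2
    subst hy3
    refine hav a _ hab ?_
    have h6 : [a, b, a] <+ w := h5
    have h7 : [b] <+ z := (List.singleton_sublist.2 hy).trans h2
    have := List.Sublist.append h6 h7
    simpa using this
  · rw [h3] at hc1
    have h5 := h.hQ j hj 2 (by omega) hc1
    rw [h4, testBit_tab hkN hi, e2, List.isSublist_iff_sublist] at hc2
    refine hav a b hab ?_
    have h6 : [a, b] <+ w := h5
    have := List.Sublist.append h6 (hc2.trans h2)
    simpa using this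

/-- the bound holds for all words that pass through the state `s` -/
def Good (D : Dat) (ps : List (List ℕ)) (s : ℕ × ℕ) : Prop :=
  ∀ (w z : List ℕ), Sem D ps w s.1 s.2 → (∀ x ∈ z, x < D.N) → Av (w ++ z) →
    ((Finset.range D.F).filter (fun i => ps.getD i [] <+ w ++ z)).card ≤ D.T

lemma chk_aux {D : Dat} {ps : List (List ℕ)} (ok : Ok D ps) {K : List (ℕ × ℕ)}
    (hK : ∀ s ∈ K, Good D ps s) (z : List ℕ) :
    ∀ (f : ℕ) (w : List ℕ) (E Q : ℕ), chk D K f E Q = true → Sem D ps w E Q →
      (∀ x ∈ z, x < D.N) → Av (w ++ z) →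
      ((Finset.range D.F).filter (fun i => ps.getD i [] <+ w ++ z)).card ≤ D.T := by
  induction z with
  | nil =>
    intro f w E Q hc hs hz hav
    cases f with
    | zero =>
      rw [chk, Bool.or_eq_true] at hc
      rcases hc with hc | hc
      · exact hK _ (inK_mem hc) w [] hs hz hav
      rw [ubOk_eq] at hc
      exact (ub_sound ok hs hav).trans (Nat.le_of_ble_eq_true hc)
    | succ f =>
      rw [chk, Bool.or_eq_true] at hc
      rcases hc with hc | hc
      · exact hK _ (inK_mem hc) w [] hs hz hav
      rw [ubOk_eq, nOk_eq, Bool.or_eq_true] at hc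
      rcases hc with hc | hc
      · exact (ub_sound ok hs hav).trans (Nat.le_of_ble_eq_true hc)
      · rw [Bool.and_eq_true] at hc
        refine le_trans ?_ (Nat.le_of_ble_eq_true hc.1)
        rw [pc_eq]
        apply Finset.card_le_card
        intro i hi
        rw [Finset.mem_filter, Finset.mem_range] at hi ⊢
        obtain ⟨hi, hsub⟩ := hi
        have hlen : (ps.getD i []).length = D.N :=
          ok.lenp _ (getD_mem (by rw [ok.len]; exact hi))
        refine ⟨hi, ?_⟩
        rw [Nat.testBit_shiftRight]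
        rw [List.append_nil] at hsub
        exact hs.hE i hi D.N le_rfl (by rw [List.take_of_length_le (by omega)]; exact hsub)
  | cons x z ih =>
    intro f w E Q hc hs hz hav
    have hx : x < D.N := hz x List.mem_cons_self
    have hz' : ∀ y ∈ z, y < D.N := fun y hy => hz y (List.mem_cons_of_mem _ hy)
    have ew : w ++ x :: z = (w ++ [x]) ++ z := by simp
    cases f with
    | zero =>
      rw [chk, Bool.or_eq_true] at hc
      rcases hc with hc | hc
      · exact hK _ (inK_mem hc) w (x :: z) hs hz hav
      rw [ubOk_eq] at hc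
      exact (ub_sound ok hs hav).trans (Nat.le_of_ble_eq_true hc)
    | succ f =>
      have hc0 := hc
      rw [chk, Bool.or_eq_true] at hc
      rcases hc with hc | hc
      · exact hK _ (inK_mem hc) w (x :: z) hs hz hav
      rw [ubOk_eq, nOk_eq, Bool.or_eq_true] at hc
      rcases hc with hc | hc
      · exact (ub_sound ok hs hav).trans (Nat.le_of_ble_eq_true hc)
      · rw [Bool.and_eq_true, List.all_eq_true] at hc
        have hcx := hc.2 x (List.mem_range.2 hx)
        rw [Bool.or_eq_true] at hcx
        rcases hcx with hcx | hcx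
        · exfalso
          have h0 : 0 < Q &&& D.BX.getD x 0 := by
            simpa [Nat.blt_eq] using hcx
          obtain ⟨j, hj⟩ := Nat.exists_testBit_of_ne_zero (by omega : Q &&& D.BX.getD x 0 ≠ 0)
          rw [Nat.testBit_and, Bool.and_eq_true, ok.hBX x hx, testBit_mkB] at hj
          obtain ⟨hj1, hj2⟩ := hj
          have hjl : j < 4 * (prs D.N).length := by
            by_contra hcon
            rw [List.getD_eq_default _ _ (by simpa using hcon)] at hj2
            exact absurd hj2 (by decide)
          rw [List.getD_eq_getElem _ _ (by simpa using hjl), List.getElem_map,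
            List.getElem_range, Bool.and_eq_true] at hj2
          have e1 := Nat.eq_of_beq_eq_true hj2.1
          have e2 := Nat.eq_of_beq_eq_true hj2.2
          have hi : j / 4 < (prs D.N).length := by omega
          have h5 := hs.hQ (j / 4) hi 3 (by omega) (by
            rw [show 4 * (j / 4) + 3 = j by omega]
            exact hj1)
          have hab := prs_lt hi
          refine hav _ _ hab ?_
          have h6 : [((prs D.N).getD (j / 4) (0, 0)).1, ((prs D.N).getD (j / 4) (0, 0)).2,
              ((prs D.N).getD (j / 4) (0, 0)).1] <+ w := h5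
          have h7 : [((prs D.N).getD (j / 4) (0, 0)).2] <+ x :: z := by
            rw [e2]
            exact List.singleton_sublist.2 List.mem_cons_self
          exact List.Sublist.append h6 h7
        · rw [force_eq, force_eq, Bool.or_eq_true] at hcx
          have hs' : Sem D ps (w ++ [x]) (Nat.lor E (Nat.shiftLeft (Nat.land E (D.L.getD x 0)) D.F))
              (Nat.lor Q (Nat.shiftLeft (Nat.land Q (D.PX.getD x 0)) 1)) := sem_step ok hx hs
          rw [ew] at hav ⊢
          rcases hcx with hcx | hcx
          · rw [Bool.and_eq_true] at hcx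
            have e1 := Nat.eq_of_beq_eq_true hcx.1
            have e2 := Nat.eq_of_beq_eq_true hcx.2
            rw [e1, e2] at hs'
            exact ih (f + 1) _ E Q hc0 hs' hz' hav
          · exact ih f _ _ _ hcx hs' hz' hav

theorem chk_sound {D : Dat} {ps : List (List ℕ)} (ok : Ok D ps) {K : List (ℕ × ℕ)}
    (hK : ∀ s ∈ K, Good D ps s) (f E Q : ℕ) (hc : chk D K f E Q = true) : Good D ps (E, Q) :=
  fun w z hs hz hav => chk_aux ok hK z f w E Q hc hs hz hav

end Pool.Agent.Work.MP_8eaa9c_co.Thr
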