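import Pool.Agent.Work.MP_8eaa9c_co.Red.Runs

/-!
The number of up-down-up permutations of `Fin N` is at least `(3^N - 2N + 3)/4`.

Proof of `card_udu`.  Let `W` be the set of triples `(σ, i, j)` with `i ≤ j ≤ N` such that the word
`ω = σ.symm` is increasing on `[0, i)`, decreasing on `[i, j)` and increasing on `[j, N)`.
* `3 ^ N ≤ |W|`: to `φ : Fin N → Fin 3` assign `i = |φ⁻¹(0)|`, `j = i + |φ⁻¹(1)|` and the word which lists
  `φ⁻¹(0)` increasingly, then `φ⁻¹(1)` decreasingly, then `φ⁻¹(2)` increasingly (equivalently: `σ a` is the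
  number of `b` with `key b < key a` for the injective lexicographic key `(0, a), (1, -a), (2, a)`).
  Injective: `φ a = 0` iff `σ a < i`, `φ a = 1` iff `i ≤ σ a < j`.
* For the identity there are at most `2 N + 1` pairs `(i, j)`: an interval `[i, j)` with `j ≥ i + 2`
  contains an ascent, so `j ∈ {i, i + 1}`, `j ≤ N`.
* For every other `σ` there are at most `4` pairs: let `v₀` be the first and `v₁` the last descent of `ω`
  (`ω v > ω (v + 1)`).  `[0, i)` contains no descent: `i ≤ v₀ + 1`.  `[j, N)` contains no descent: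
  `j ≥ v₁ + 1`.  If `v₀ ≥ 1` then `(v₀ - 1, v₀)` is an ascent and `v₀ < j`, so `i ≥ v₀`.  If `v₁ + 2 < N`
  then `(v₁ + 1, v₁ + 2)` is an ascent and `i ≤ v₁ + 1`, so `j ≤ v₁ + 2`.
  So `i ∈ {v₀, v₀ + 1}`, `j ∈ {v₁ + 1, v₁ + 2}`.
* Hence `3 ^ N ≤ 4 (U - 1) + 2 N + 1` with `U` the number of up-down-up permutations.
`card_dud` follows with the bijection `σ ↦ (v ↦ rev (σ.symm v)).symm`.
-/

namespace Pool.Agent.Work.MP_8eaa9c_co.Thr

open Finset

/-- `i`, `j` are cut points of the word of `σ` -/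
private def Cut {N : ℕ} (σ : Equiv.Perm (Fin N)) (i j : ℕ) : Prop :=
  (∀ v w : Fin N, v < w → (w : ℕ) < i → σ.symm v < σ.symm w) ∧
    (∀ v w : Fin N, v < w → i ≤ v → (w : ℕ) < j → σ.symm w < σ.symm v) ∧
    ∀ v w : Fin N, v < w → j ≤ v → σ.symm v < σ.symm w

/-- the key of a letter -/
private def key {N : ℕ} (φ : Fin N → Fin 3) (a : Fin N) : ℕ :=
  if φ a = 0 then (a : ℕ) else if φ a = 1 then 2 * N - 1 - a else 2 * N + a

private lemma key_cases {N : ℕ} (φ : Fin N → Fin 3) (a : Fin N) :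
    (φ a = 0 ∧ key φ a = a) ∨ (φ a = 1 ∧ key φ a = 2 * N - 1 - a) ∨
      (φ a = 2 ∧ key φ a = 2 * N + a) := by
  unfold key
  have h : φ a = 0 ∨ φ a = 1 ∨ φ a = 2 := by
    generalize φ a = x
    fin_cases x <;> simp
  rcases h with h | h | h
  · left
    rw [if_pos h]
    exact ⟨h, rfl⟩
  · right; left
    rw [if_neg (by rw [h]; decide), if_pos h]
    exact ⟨h, rfl⟩
  · right; right
    rw [if_neg (by rw [h]; decide), if_neg (by rw [h]; decide)]
    exact ⟨h, rfl⟩

private lemma key_inj {N : ℕ} (φ : Fin N → Fin 3) : Function.Injective (key φ) := by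
  intro a b h
  have ha := a.2
  have hb := b.2
  apply Fin.ext
  rcases key_cases φ a with h1 | h1 | h1 <;> rcases key_cases φ b with h2 | h2 | h2 <;> omega

/-- the rank of a letter -/
private def rk {N : ℕ} (φ : Fin N → Fin 3) (a : Fin N) : ℕ :=
  (univ.filter (fun b => key φ b < key φ a)).card

private lemma rk_lt_of {N : ℕ} {φ : Fin N → Fin 3} {a b : Fin N} (h : key φ a < key φ b) :
    rk φ a < rk φ b := by
  apply card_lt_card
  rw [ssubset_iff_of_subset]
  · exact ⟨a, by simpa using h, by simp⟩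
  · intro c hc
    rw [mem_filter] at hc ⊢
    exact ⟨hc.1, hc.2.trans h⟩

private lemma rk_lt_iff {N : ℕ} {φ : Fin N → Fin 3} {a b : Fin N} :
    rk φ a < rk φ b ↔ key φ a < key φ b := by
  refine ⟨fun h => ?_, rk_lt_of⟩
  by_contra h1
  rcases Nat.lt_or_ge (key φ b) (key φ a) with h2 | h2
  · exact absurd (rk_lt_of h2) (by omega)
  · have := key_inj φ (le_antisymm (not_lt.1 h1) h2)
    subst this
    omega

private lemma rk_bound {N : ℕ} (φ : Fin N → Fin 3) (a : Fin N) : rk φ a < N := by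
  have h : rk φ a < (univ : Finset (Fin N)).card := by
    apply card_lt_card
    rw [ssubset_iff_of_subset (filter_subset _ _)]
    exact ⟨a, mem_univ _, by simp⟩
  rwa [card_univ, Fintype.card_fin] at h

/-- the permutation of an assignment -/
private noncomputable def prm {N : ℕ} (φ : Fin N → Fin 3) : Equiv.Perm (Fin N) :=
  Equiv.ofBijective (fun a => (⟨rk φ a, rk_bound φ a⟩ : Fin N)) (by
    rw [Fintype.bijective_iff_injective_and_card]
    refine ⟨fun a b h => ?_, rfl⟩
    have h1 : rk φ a = rk φ b := congrArg Fin.val h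
    apply key_inj φ
    rcases Nat.lt_trichotomy (key φ a) (key φ b) with h2 | h2 | h2
    · exact absurd (rk_lt_of h2) (by omega)
    · exact h2
    · exact absurd (rk_lt_of h2) (by omega))

private lemma prm_val {N : ℕ} (φ : Fin N → Fin 3) (a : Fin N) : ((prm φ a : Fin N) : ℕ) = rk φ a :=
  rfl

private lemma prm_lt {N : ℕ} {φ : Fin N → Fin 3} {a b : Fin N} :
    prm φ a < prm φ b ↔ key φ a < key φ b := by
  rw [Fin.lt_def, prm_val, prm_val, rk_lt_iff]

/-- number of letters of class less than `c` -/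
private def cc {N : ℕ} (φ : Fin N → Fin 3) (c : ℕ) : ℕ :=
  (univ.filter (fun a => (φ a : ℕ) < c)).card

private lemma cc_le {N : ℕ} (φ : Fin N → Fin 3) (c : ℕ) : cc φ c ≤ N := by
  have := card_le_univ (univ.filter (fun a => (φ a : ℕ) < c))
  rwa [Fintype.card_fin] at this

private lemma cc_mono {N : ℕ} (φ : Fin N → Fin 3) {c d : ℕ} (h : c ≤ d) : cc φ c ≤ cc φ d := by
  apply card_le_card
  intro a ha
  rw [mem_filter] at ha ⊢
  exact ⟨ha.1, by omega⟩

private lemma key_class {N : ℕ} {φ : Fin N → Fin 3} {a b : Fin N}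
    (h : (φ a : ℕ) < (φ b : ℕ)) : key φ a < key φ b := by
  have ha := a.2
  have hb := b.2
  rcases key_cases φ a with h1 | h1 | h1 <;> rcases key_cases φ b with h2 | h2 | h2 <;>
    rw [h1.1, h2.1] at h <;> first | (exact absurd h (by decide)) | omega

private lemma lt_cc {N : ℕ} {φ : Fin N → Fin 3} {a : Fin N} {c : ℕ} :
    (prm φ a : ℕ) < cc φ c ↔ (φ a : ℕ) < c := by
  rw [prm_val]
  constructor
  · intro h
    by_contra h1
    have : cc φ c ≤ rk φ a := by
      apply card_le_card
      intro b hb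
      rw [mem_filter] at hb ⊢
      exact ⟨hb.1, key_class (by omega)⟩
    omega
  · intro h
    apply card_lt_card
    rw [ssubset_iff_of_subset]
    · exact ⟨a, by simpa using h, by simp⟩
    · intro b hb
      rw [mem_filter] at hb ⊢
      refine ⟨hb.1, ?_⟩
      by_contra h1
      have := key_class (φ := φ) (a := a) (b := b) (by omega)
      omega

private lemma prm_cut {N : ℕ} (φ : Fin N → Fin 3) : Cut (prm φ) (cc φ 1) (cc φ 2) := by
  have main : ∀ v w : Fin N, v < w →
      key φ ((prm φ).symm v) < key φ ((prm φ).symm w) := by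
    intro v w h
    rw [← prm_lt, Equiv.apply_symm_apply, Equiv.apply_symm_apply]
    exact h
  have cl : ∀ (v : Fin N) (c : ℕ), (v : ℕ) < cc φ c ↔ (φ ((prm φ).symm v) : ℕ) < c := by
    intro v c
    rw [← lt_cc, Equiv.apply_symm_apply]
  refine ⟨?_, ?_, ?_⟩
  · intro v w h hw
    have h1 := main v w h
    have hv : (v : ℕ) < cc φ 1 := lt_trans h hw
    rw [cl] at hv hw
    generalize (prm φ).symm v = a at *
    generalize (prm φ).symm w = b at *
    rw [Fin.lt_def]
    rcases key_cases φ a with h2 | h2 | h2 <;> rcases key_cases φ b with h3 | h3 | h3 <;>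
      rw [h2.1] at hv <;> rw [h3.1] at hw <;>
      first | (exact absurd hv (by decide)) | (exact absurd hw (by decide)) | omega
  · intro v w h hv hw
    have h1 := main v w h
    have hv2 : (v : ℕ) < cc φ 2 := lt_trans h hw
    have hw2 : ¬ (w : ℕ) < cc φ 1 := by
      have : (v : ℕ) < w := h
      omega
    have hv1 : ¬ (v : ℕ) < cc φ 1 := by omega
    rw [cl] at hv2 hw hw2 hv1
    generalize (prm φ).symm v = a at *
    generalize (prm φ).symm w = b at *
    have ha := a.2
    have hb := b.2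
    rw [Fin.lt_def]
    rcases key_cases φ a with h2 | h2 | h2 <;> rcases key_cases φ b with h3 | h3 | h3 <;>
      rw [h2.1] at hv2 hv1 <;> rw [h3.1] at hw hw2 <;>
      first | (exact absurd hv2 (by decide)) | (exact absurd hw (by decide)) |
        (exact absurd (by decide) hw2) | (exact absurd (by decide) hv1) | omega
  · intro v w h hv
    have h1 := main v w h
    have hw2 : ¬ (w : ℕ) < cc φ 2 := by
      have : (v : ℕ) < w := h
      omega
    have hv1 : ¬ (v : ℕ) < cc φ 2 := by omega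
    rw [cl] at hw2 hv1
    generalize (prm φ).symm v = a at *
    generalize (prm φ).symm w = b at *
    rw [Fin.lt_def]
    rcases key_cases φ a with h2 | h2 | h2 <;> rcases key_cases φ b with h3 | h3 | h3 <;>
      rw [h2.1] at hv1 <;> rw [h3.1] at hw2 <;>
      first | (exact absurd (by decide) hw2) | (exact absurd (by decide) hv1) | omega

private lemma phi_eq {N : ℕ} {φ ψ : Fin N → Fin 3} (h : prm φ = prm ψ) (h1 : cc φ 1 = cc ψ 1)
    (h2 : cc φ 2 = cc ψ 2) : φ = ψ := by
  funext a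
  have e1 := lt_cc (φ := φ) (a := a) (c := 1)
  have e2 := lt_cc (φ := φ) (a := a) (c := 2)
  have e3 := lt_cc (φ := ψ) (a := a) (c := 1)
  have e4 := lt_cc (φ := ψ) (a := a) (c := 2)
  rw [h, h1] at e1
  rw [h, h2] at e2
  apply Fin.ext
  have a1 := (φ a).2
  have a2 := (ψ a).2
  have f1 : (φ a : ℕ) < 1 ↔ (ψ a : ℕ) < 1 := e1.symm.trans e3
  have f2 : (φ a : ℕ) < 2 ↔ (ψ a : ℕ) < 2 := e2.symm.trans e4
  omega

open Classical in
/-- the pairs of cut points -/
private noncomputable def Prs {N : ℕ} (σ : Equiv.Perm (Fin N)) : Finset (ℕ × ℕ) :=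
  ((range (N + 1)) ×ˢ (range (N + 1))).filter (fun p => p.1 ≤ p.2 ∧ Cut σ p.1 p.2)

private lemma prs_one {N : ℕ} : (Prs (1 : Equiv.Perm (Fin N))).card ≤ 2 * N + 1 := by
  classical
  have h : Prs (1 : Equiv.Perm (Fin N)) ⊆
      (range (N + 1)).image (fun i => (i, i)) ∪ (range N).image (fun i => (i, i + 1)) := by
    rintro ⟨i, j⟩ hp
    rw [Prs, mem_filter, mem_product, mem_range, mem_range] at hp
    obtain ⟨⟨hi, hj⟩, hij, hc⟩ := hp
    simp only at hi hj hij hc
    have h2 : j ≤ i + 1 := by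
      by_contra hcon
      have hlt : i + 1 < N := by omega
      have := hc.2.1 ⟨i, by omega⟩ ⟨i + 1, hlt⟩ (by simp [Fin.lt_def]) le_rfl (by
        simp only
        omega)
      rw [Fin.lt_def] at this
      have e1 : ((Equiv.symm (1 : Equiv.Perm (Fin N)) ⟨i + 1, hlt⟩ : Fin N) : ℕ) = i + 1 := rfl
      have e2 : ((Equiv.symm (1 : Equiv.Perm (Fin N)) ⟨i, by omega⟩ : Fin N) : ℕ) = i := rfl
      rw [e1, e2] at this
      omega
    rw [mem_union, mem_image, mem_image]
    rcases Nat.eq_or_lt_of_le hij with h3 | h3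
    · left
      exact ⟨i, by rw [mem_range]; exact hi, by rw [h3]⟩
    · right
      exact ⟨i, by rw [mem_range]; omega, by
        rw [Prod.mk.injEq]
        exact ⟨rfl, by omega⟩⟩
  refine (card_le_card h).trans ((card_union_le _ _).trans ?_)
  have h1 := card_image_le (s := range (N + 1)) (f := fun i => (i, i))
  have h2 := card_image_le (s := range N) (f := fun i => (i, i + 1))
  rw [card_range] at h1 h2
  omega

private lemma exists_desc {N : ℕ} {σ : Equiv.Perm (Fin N)} (h : σ ≠ 1) :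
    ∃ (v : ℕ) (hv : v + 1 < N), σ.symm ⟨v + 1, hv⟩ < σ.symm ⟨v, by omega⟩ := by
  by_contra hcon
  push Not at hcon
  apply h
  have step : ∀ (k v : ℕ) (hv : v + k < N), (σ.symm ⟨v, by omega⟩ : ℕ) + k ≤
      (σ.symm ⟨v + k, hv⟩ : ℕ) := by
    intro k
    induction k with
    | zero => intro v hv; simp
    | succ k ih =>
      intro v hv
      have h1 := ih v (by omega)
      have h2 := hcon (v + k) (by omega)
      have h3 : σ.symm ⟨v + k, by omega⟩ ≠ σ.symm ⟨v + k + 1, by omega⟩ := by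
        intro e
        have := σ.symm.injective e
        rw [Fin.mk.injEq] at this
        omega
      have h4 : σ.symm ⟨v + k, by omega⟩ < σ.symm ⟨v + k + 1, by omega⟩ := lt_of_le_of_ne h2 h3
      rw [Fin.lt_def] at h4
      have e : (⟨v + (k + 1), hv⟩ : Fin N) = ⟨v + k + 1, by omega⟩ := rfl
      rw [e]
      omega
  have hid : ∀ v : Fin N, σ.symm v = v := by
    intro v
    have hv := v.2
    apply Fin.ext
    have h1 := step v 0 (by omega)
    have h2 := step (N - 1 - v) v (by omega)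
    have e1 : (⟨0 + (v : ℕ), by omega⟩ : Fin N) = v := Fin.ext (by simp only; omega)
    have e2 : (⟨(v : ℕ), by omega⟩ : Fin N) = v := rfl
    rw [e1] at h1
    rw [e2] at h2
    have h3 := (σ.symm ⟨(v : ℕ) + (N - 1 - v), by omega⟩).2
    omega
  ext v
  have := hid (σ v)
  rw [Equiv.symm_apply_apply] at this
  rw [← this]
  rfl

private lemma prs_four {N : ℕ} {σ : Equiv.Perm (Fin N)} (h : σ ≠ 1) : (Prs σ).card ≤ 4 := by
  classical
  let D : Finset ℕ := (range N).filter (fun v => ∃ hv : v + 1 < N,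
    σ.symm ⟨v + 1, hv⟩ < σ.symm ⟨v, by omega⟩)
  have hD : ∀ v, v ∈ D ↔ ∃ hv : v + 1 < N, σ.symm ⟨v + 1, hv⟩ < σ.symm ⟨v, by omega⟩ := by
    intro v
    simp only [D, mem_filter, mem_range]
    exact ⟨fun h => h.2, fun h => ⟨by obtain ⟨h1, _⟩ := h; omega, h⟩⟩
  obtain ⟨v, hv, hd⟩ := exists_desc h
  have hne : D.Nonempty := ⟨v, (hD v).2 ⟨hv, hd⟩⟩
  set v₀ := D.min' hne with hv₀
  set v₁ := D.max' hne with hv₁
  obtain ⟨a1, a2⟩ := (hD v₀).1 (D.min'_mem hne)
  obtain ⟨b1, b2⟩ := (hD v₁).1 (D.max'_mem hne)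
  have h01 : v₀ ≤ v₁ := D.min'_le _ (D.max'_mem hne)
  have hs : Prs σ ⊆ ({v₀, v₀ + 1} : Finset ℕ) ×ˢ ({v₁ + 1, v₁ + 2} : Finset ℕ) := by
    rintro ⟨i, j⟩ hp
    rw [Prs, mem_filter, mem_product, mem_range, mem_range] at hp
    obtain ⟨⟨hi, hj⟩, hij, c1, c2, c3⟩ := hp
    simp only at hi hj hij c1 c2 c3
    have k1 : i ≤ v₀ + 1 := by
      by_contra hcon
      have := c1 ⟨v₀, by omega⟩ ⟨v₀ + 1, a1⟩ (by simp [Fin.lt_def]) (by simp only; omega)
      exact absurd this (not_lt.2 a2.le)
    have k2 : v₁ + 1 ≤ j := by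
      by_contra hcon
      have := c3 ⟨v₁, by omega⟩ ⟨v₁ + 1, b1⟩ (by simp [Fin.lt_def]) (by simp only; omega)
      exact absurd this (not_lt.2 b2.le)
    have k3 : v₀ ≤ i := by
      by_contra hcon
      have := c2 ⟨v₀ - 1, by omega⟩ ⟨v₀, by omega⟩ (by
        rw [Fin.lt_def]
        simp only
        omega) (by simp only; omega) (by simp only; omega)
      have hmem : v₀ - 1 ∈ D := (hD _).2 ⟨by omega, by
        have e : (⟨v₀ - 1 + 1, by omega⟩ : Fin N) = ⟨v₀, by omega⟩ := Fin.ext (by simp only; omega)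
        rw [e]
        exact this⟩
      have := D.min'_le _ hmem
      omega
    have k4 : j ≤ v₁ + 2 := by
      by_contra hcon
      have := c2 ⟨v₁ + 1, by omega⟩ ⟨v₁ + 2, by omega⟩ (by
        rw [Fin.lt_def]
        simp only
        omega) (by simp only; omega) (by simp only; omega)
      have hmem : v₁ + 1 ∈ D := (hD _).2 ⟨by omega, this⟩
      have := D.le_max' _ hmem
      omega
    rw [mem_product, mem_insert, mem_singleton, mem_insert, mem_singleton]
    simp only
    omega
  refine (card_le_card hs).trans ?_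
  rw [card_product]
  have h1 := card_le_two (a := v₀) (b := v₀ + 1)
  have h2 := card_le_two (a := v₁ + 1) (b := v₁ + 2)
  exact Nat.mul_le_mul h1 h2

private lemma udu_of_cut {N : ℕ} {σ : Equiv.Perm (Fin N)} {i j : ℕ} (h : i ≤ j)
    (hc : Cut σ i j) : UpDownUp σ := ⟨i, j, h, hc.1, hc.2.1, hc.2.2⟩

open Classical in
theorem card_udu (N : ℕ) :
    3 ^ N + 3 ≤ 4 * (univ.filter (fun σ : Equiv.Perm (Fin N) => UpDownUp σ)).card + 2 * N := by
  set U := univ.filter (fun σ : Equiv.Perm (Fin N) => UpDownUp σ) with hU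
  have h1 : (univ : Finset (Fin N → Fin 3)).card = 3 ^ N := by
    rw [card_univ, Fintype.card_fun, Fintype.card_fin, Fintype.card_fin]
  have h2 : ∀ φ ∈ (univ : Finset (Fin N → Fin 3)), prm φ ∈ U := by
    intro φ _
    rw [hU, mem_filter]
    exact ⟨mem_univ _, udu_of_cut (cc_mono φ (by omega)) (prm_cut φ)⟩
  have h3 := card_eq_sum_card_fiberwise h2
  have h4 : ∀ σ ∈ U, (univ.filter (fun φ : Fin N → Fin 3 => prm φ = σ)).card ≤ (Prs σ).card := by
    intro σ _
    refine card_le_card_of_injOn (fun φ => (cc φ 1, cc φ 2)) ?_ ?_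
    · intro φ hφ
      rw [mem_coe, mem_filter] at hφ
      rw [mem_coe, Prs, mem_filter, mem_product, mem_range, mem_range]
      have b1 := cc_le φ 1
      have b2 := cc_le φ 2
      change (cc φ 1 < N + 1 ∧ cc φ 2 < N + 1) ∧ cc φ 1 ≤ cc φ 2 ∧ Cut σ (cc φ 1) (cc φ 2)
      refine ⟨⟨by omega, by omega⟩, cc_mono φ (by omega), ?_⟩
      rw [← hφ.2]
      exact prm_cut φ
    · intro φ hφ ψ hψ he
      rw [mem_coe, mem_filter] at hφ hψ
      obtain ⟨e1, e2⟩ := Prod.mk.inj he
      exact phi_eq (hφ.2.trans hψ.2.symm) e1 e2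
  have h5 : (1 : Equiv.Perm (Fin N)) ∈ U := by
    rw [hU, mem_filter]
    refine ⟨mem_univ _, ⟨N, N, le_rfl, ?_, ?_, ?_⟩⟩
    · intro v w h _
      exact h
    · intro v w _ h3
      have := v.2
      omega
    · intro v w _ h3
      have := v.2
      omega
  rw [h1] at h3
  have h6 : ∑ σ ∈ U, (univ.filter (fun φ : Fin N → Fin 3 => prm φ = σ)).card ≤
      4 * (U.card - 1) + (2 * N + 1) := by
    rw [← sum_erase_add _ _ h5]
    refine Nat.add_le_add ?_ ((h4 1 h5).trans prs_one)
    have h7 : ∑ σ ∈ U.erase 1, (univ.filter (fun φ : Fin N → Fin 3 => prm φ = σ)).card ≤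
        ∑ _σ ∈ U.erase 1, 4 := by
      apply sum_le_sum
      intro σ hσ
      rw [mem_erase] at hσ
      exact (h4 σ hσ.2).trans (prs_four hσ.1)
    refine h7.trans ?_
    rw [sum_const, smul_eq_mul, card_erase_of_mem h5, mul_comm]
  have h8 : 1 ≤ U.card := card_pos.2 ⟨1, h5⟩
  omega

open Classical in
theorem card_dud (N : ℕ) :
    3 ^ N + 3 ≤ 4 * (univ.filter (fun σ : Equiv.Perm (Fin N) => DownUpDown σ)).card + 2 * N := by
  have h : (univ.filter (fun σ : Equiv.Perm (Fin N) => UpDownUp σ)).card ≤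
      (univ.filter (fun σ : Equiv.Perm (Fin N) => DownUpDown σ)).card := by
    refine card_le_card_of_injOn (fun σ => (σ.symm.trans Fin.revPerm).symm) ?_ ?_
    · intro σ hσ
      rw [mem_coe, mem_filter] at hσ ⊢
      obtain ⟨_, i, j, hij, c1, c2, c3⟩ := hσ
      refine ⟨mem_univ _, i, j, hij, ?_, ?_, ?_⟩
      · intro v w h1 h2
        exact Fin.rev_lt_rev.2 (c1 v w h1 h2)
      · intro v w h1 h2 h3
        exact Fin.rev_lt_rev.2 (c2 v w h1 h2 h3)
      · intro v w h1 h2
        exact Fin.rev_lt_rev.2 (c3 v w h1 h2)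
    · intro σ _ τ _ he
      have h1 : σ.symm.trans Fin.revPerm = τ.symm.trans Fin.revPerm := by
        have := congrArg Equiv.symm he
        simpa using this
      have h2 : σ.symm = τ.symm := by
        ext v
        have h3 := Equiv.congr_fun h1 v
        rw [Equiv.trans_apply, Equiv.trans_apply] at h3
        exact congrArg Fin.val (Fin.revPerm.injective h3)
      have := congrArg Equiv.symm h2
      simpa using this
  have := card_udu N
  omega

end Pool.Agent.Work.MP_8eaa9c_co.Thr
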