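import Pool.Agent.Work.MP_8eaa9c_co.Defs

/-!
The collections of all large sets of patterns: at most `q` patterns at every tuple.
-/

namespace Pool.Agent.Work.MP_8eaa9c_co.Thr

/-- all sets of at least `N! - q` patterns of length `N` -/
def atMost (N q : ℕ) : Set (Set (Equiv.Perm (Fin N))) := {A | N.factorial ≤ A.ncard + q}

/-- the patterns of `P` at the positions `X` -/
def shown {N n : ℕ} (P : Set (Equiv.Perm (Fin n))) (X : Fin N ↪o Fin n) :
    Set (Equiv.Perm (Fin N)) := {τ | ∃ π ∈ P, HasRestriction π X τ}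

lemma ncard_compl {N : ℕ} (A : Set (Equiv.Perm (Fin N))) : A.ncard + Aᶜ.ncard = N.factorial := by
  rw [Set.ncard_add_ncard_compl, Nat.card_eq_fintype_card, Fintype.card_perm, Fintype.card_fin]

theorem restricted_atMost {N q n : ℕ} (P : Set (Equiv.Perm (Fin n))) :
    Restricted (atMost N q) P ↔ ∀ X : Fin N ↪o Fin n, (shown P X).ncard ≤ q := by
  constructor
  · intro h X
    obtain ⟨A, hA, hA2⟩ := h X
    have h1 : shown P X ⊆ Aᶜ := by
      rintro τ ⟨π, hπ, hτ⟩ hτA
      exact hA2 τ hτA π hπ hτ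
    have h2 := Set.ncard_le_ncard h1 (Set.toFinite _)
    have h3 := ncard_compl A
    have h4 : N.factorial ≤ A.ncard + q := hA
    omega
  · intro h X
    refine ⟨(shown P X)ᶜ, ?_, ?_⟩
    · have h3 := ncard_compl (shown P X)
      have h4 := h X
      change N.factorial ≤ (shown P X)ᶜ.ncard + q
      omega
    · intro τ hτ π hπ h5
      exact hτ ⟨π, hπ, h5⟩

end Pool.Agent.Work.MP_8eaa9c_co.Thr
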