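import Pool.Agent.Work.MP_8eaa9c_co.Thr.Auto
import Pool.Agent.Work.MP_8eaa9c_co.Defs

/-!
From the search on lists to words and permutations.
-/

namespace Pool.Agent.Work.MP_8eaa9c_co.Thr

open scoped List
open Finset

lemma sem0 {D : Dat} {ps : List (List ℕ)} (ok : Ok D ps) {E Q : ℕ}
    (hE : ∀ i < D.F, E.testBit i = true)
    (hQ : ∀ i < (prs D.N).length, ∀ v < 4, Q.testBit (4 * i + v) = true → v = 0) :
    Sem D ps [] E Q := by
  refine ⟨?_, ?_⟩
  · intro i hi k hk hs
    have hlen : (ps.getD i []).length = D.N := ok.lenp _ (getD_mem (by rw [ok.len]; exact hi))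
    have h1 := List.sublist_nil.1 hs
    have h2 := congrArg List.length h1
    rw [List.length_take, List.length_nil, hlen] at h2
    obtain rfl : k = 0 := by omega
    rw [Nat.zero_mul, Nat.zero_add]
    exact hE i hi
  · intro i hi v hv hb
    rw [hQ i hi v hv hb]
    simp

/-- the word of a permutation -/
def wd {N : ℕ} (σ : Equiv.Perm (Fin N)) : List ℕ := List.ofFn (fun v => (σ.symm v : ℕ))

lemma wd_perm {N : ℕ} (σ : Equiv.Perm (Fin N)) : wd σ ~ List.range N := by
  rw [List.perm_ext_iff_of_nodup]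
  · intro a
    rw [wd, List.mem_ofFn, List.mem_range]
    constructor
    · rintro ⟨v, rfl⟩
      exact (σ.symm v).2
    · intro ha
      exact ⟨σ ⟨a, ha⟩, by simp⟩
  · rw [wd, List.nodup_ofFn]
    intro a b h
    exact σ.symm.injective (Fin.ext h)
  · exact List.nodup_range

lemma wd_inj {N : ℕ} {σ τ : Equiv.Perm (Fin N)} (h : wd σ = wd τ) : σ = τ := by
  rw [wd, wd] at h
  have h1 := List.ofFn_injective h
  have h2 : σ.symm = τ.symm := by
    ext v
    exact congrFun h1 v
  have := congrArg Equiv.symm h2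
  simpa using this

lemma wd_index {N : ℕ} {ps : List (List ℕ)} (hps : ps = (List.range N).permutations')
    (σ : Equiv.Perm (Fin N)) : ∃ i < ps.length, ps.getD i [] = wd σ := by
  have h : wd σ ∈ ps := by
    rw [hps, List.mem_permutations']
    exact wd_perm σ
  obtain ⟨i, hi, e⟩ := List.getElem_of_mem h
  exact ⟨i, hi, by rw [List.getD_eq_getElem _ _ hi, e]⟩

/-- the number of permutations with a property of the word -/
lemma card_wd {N : ℕ} {ps : List (List ℕ)} (hps : ps = (List.range N).permutations')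
    (R : List ℕ → Prop) (S : Finset (Equiv.Perm (Fin N))) (hS : ∀ σ ∈ S, R (wd σ))
    [DecidablePred R] :
    S.card ≤ ((range ps.length).filter (fun i => R (ps.getD i []))).card := by
  choose f hf1 hf2 using fun σ => wd_index (N := N) hps σ
  refine card_le_card_of_injOn f ?_ ?_
  · intro σ hσ
    rw [mem_coe, mem_filter, mem_range]
    exact ⟨hf1 σ, by rw [hf2]; exact hS σ hσ⟩
  · intro σ _ τ _ h
    apply wd_inj
    rw [← hf2 σ, ← hf2 τ, h]

lemma spells_sub {L N : ℕ} {w : Fin L → Fin N} {σ : Equiv.Perm (Fin N)} (h : Spells w σ) :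
    wd σ <+ List.ofFn (fun l => (w l : ℕ)) := by
  obtain ⟨s, hs, hw⟩ := h
  rw [List.sublist_iff_exists_fin_orderEmbedding_get_eq]
  have e1 : (wd σ).length = N := by rw [wd, List.length_ofFn]
  have e2 : (List.ofFn (fun l => (w l : ℕ))).length = L := List.length_ofFn
  refine ⟨OrderEmbedding.ofStrictMono (fun i => Fin.cast e2.symm (s (Fin.cast e1 i))) ?_, ?_⟩
  · intro i j hij
    have h1 : s (Fin.cast e1 i) < s (Fin.cast e1 j) := hs (by
      rw [Fin.lt_def]
      exact hij)
    rw [Fin.lt_def]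
    exact h1
  · intro i
    have h2 := congrArg Fin.val (hw (Fin.cast e1 i))
    have h3 : (wd σ).get i = ((σ.symm (Fin.cast e1 i) : Fin N) : ℕ) := by
      unfold wd
      rw [List.get_ofFn]
    rw [h3, ← h2, List.get_ofFn]
    rfl

lemma av_of {L N : ℕ} {w : Fin L → Fin N}
    (h : ¬ HasPattern w (![0, 1, 0, 1] : Fin 4 → Fin 2)) :
    Av (List.ofFn (fun l => (w l : ℕ))) := by
  intro a b hab hs
  apply h
  rw [List.sublist_iff_exists_fin_orderEmbedding_get_eq] at hs
  obtain ⟨f, hf⟩ := hs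
  have e2 : (List.ofFn (fun l => (w l : ℕ))).length = L := List.length_ofFn
  refine ⟨fun i => Fin.cast e2 (f i), ?_, ?_⟩
  · intro i j hij
    have := f.strictMono (show (i : Fin [a, b, a, b].length) < j from hij)
    rw [Fin.lt_def] at this ⊢
    exact this
  · have hv : ∀ i : Fin 4, ((w (Fin.cast e2 (f i)) : Fin N) : ℕ) = [a, b, a, b].get i := by
      intro i
      rw [hf i, List.get_ofFn]
    have h0 := hv 0
    have h1 := hv 1
    have h2 := hv 2
    have h3 := hv 3
    simp only [List.get_eq_getElem, Fin.isValue, Fin.val_zero, List.getElem_cons_zero] at h0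
    have h1' : ((w (Fin.cast e2 (f 1)) : Fin N) : ℕ) = b := h1
    have h2' : ((w (Fin.cast e2 (f 2)) : Fin N) : ℕ) = a := h2
    have h3' : ((w (Fin.cast e2 (f 3)) : Fin N) : ℕ) = b := h3
    intro i j
    rw [Fin.lt_def]
    fin_cases i <;> fin_cases j <;> simp [h0, h1', h2', h3', hab, hab.le]

theorem spell_le {N T : ℕ} {D : Dat} {ps : List (List ℕ)} (ok : Ok D ps)
    (hps : ps = (List.range N).permutations') (hN : D.N = N) (hT : D.T = T) {E Q : ℕ}
    (hE : ∀ i < D.F, E.testBit i = true)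
    (hQ : ∀ i < (prs D.N).length, ∀ v < 4, Q.testBit (4 * i + v) = true → v = 0)
    (hg : Good D ps (E, Q)) {L : ℕ} {w : Fin L → Fin N}
    (h : ¬ HasPattern w (![0, 1, 0, 1] : Fin 4 → Fin 2)) (S : Finset (Equiv.Perm (Fin N)))
    (hS : ∀ σ ∈ S, Spells w σ) : S.card ≤ T := by
  classical
  have h1 := hg [] (List.ofFn (fun l => (w l : ℕ))) (sem0 ok hE hQ) (by
    intro x hx
    rw [List.mem_ofFn] at hx
    obtain ⟨l, rfl⟩ := hx
    rw [hN]
    exact (w l).2) (by
    rw [List.nil_append]
    exact av_of h)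
  rw [List.nil_append, hT, ← ok.len] at h1
  exact (card_wd hps (fun p => p <+ List.ofFn (fun l => (w l : ℕ))) S
    (fun σ hσ => spells_sub (hS σ hσ))).trans h1

end Pool.Agent.Work.MP_8eaa9c_co.Thr
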