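import Pool.Agent.Work.MP_8eaa9c_co.Thr.Fam
import Pool.Agent.Work.MP_8eaa9c_co.Thr.Trans
import Pool.Agent.Work.MP_8eaa9c_co.Thr.CountU
import Pool.Agent.Work.MP_8eaa9c_co.Symm
import Pool.Agent.Work.MP_8eaa9c_co.Red.Fin

/-!
Thresholds for the number of patterns.
-/

namespace Pool.Agent.Work.MP_8eaa9c_co.Thr

open Finset

/-- every set with more than `N! - U` elements meets a set with `U` elements -/
lemma meets {N u q : ℕ} {S : Finset (Equiv.Perm (Fin N))} (hS : u ≤ S.card)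
    {A : Set (Equiv.Perm (Fin N))} (hA : A ∈ atMost N q) (hq : q < u) : ∃ σ ∈ A, σ ∈ S := by
  by_contra hcon
  push Not at hcon
  have h1 : A ⊆ ((S : Set (Equiv.Perm (Fin N))))ᶜ := fun σ hσ h => hcon σ hσ h
  have h2 := Set.ncard_le_ncard h1 (Set.toFinite _)
  have h3 := ncard_compl ((S : Set (Equiv.Perm (Fin N))))
  rw [Set.ncard_coe_finset] at h3
  have h4 : N.factorial ≤ A.ncard + q := hA
  omega

theorem expo_of_lt {N q : ℕ} (h : 4 * q + 2 * N < 3 ^ N + 3) :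
    ExponentialBehaviour (atMost N q) := by
  classical
  have hu := card_udu N
  have hd := card_dud N
  have key : ∀ A ∈ atMost N q, (∃ σ ∈ A, UpDownUp σ) ∧ ∃ σ ∈ A, DownUpDown σ := by
    intro A hA
    constructor
    · obtain ⟨σ, hσ, h1⟩ := meets le_rfl hA (show q < _ by omega :
        q < (univ.filter (fun σ : Equiv.Perm (Fin N) => UpDownUp σ)).card)
      exact ⟨σ, hσ, (mem_filter.1 h1).2⟩
    · obtain ⟨σ, hσ, h1⟩ := meets le_rfl hA (show q < _ by omega :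
        q < (univ.filter (fun σ : Equiv.Perm (Fin N) => DownUpDown σ)).card)
      exact ⟨σ, hσ, (mem_filter.1 h1).2⟩
  rcases Nat.eq_zero_or_pos N with h0 | h0
  · subst h0
    refine ⟨1, fun n P hP => ?_⟩
    rw [one_pow]
    have hX : ∃ X : Fin 0 ↪o Fin n, True :=
      ⟨⟨⟨Fin.elim0, fun a => a.elim0⟩, fun {a} => a.elim0⟩, trivial⟩
    obtain ⟨X, -⟩ := hX
    obtain ⟨A, hA, hP'⟩ := hP X
    obtain ⟨σ, hσ, -⟩ := (key A hA).1
    have hempty : P = ∅ := by
      rw [Finset.eq_empty_iff_forall_notMem]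
      intro π hπ
      exact hP' σ hσ π hπ (fun a => a.elim0)
    rw [hempty]
    simp
  · obtain ⟨k, hk, hk'⟩ := runs_hit (atMost N q) key
    exact Red.red h0 (atMost N q) k hk (fun m hm M _ hM => hk' m hm M hM)

theorem not_expo {N T q : ℕ} (hT : ∀ {L : ℕ} {w : Fin L → Fin N},
      ¬ HasPattern w (![0, 1, 0, 1] : Fin 4 → Fin 2) → ∀ S : Finset (Equiv.Perm (Fin N)),
      (∀ σ ∈ S, Spells w σ) → S.card ≤ T) (hq : T ≤ q) :
    ¬ ExponentialBehaviour (atMost N q) := by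
  classical
  intro h
  obtain ⟨L, w, hw, -, hA⟩ := four_classes (atMost N q) h ![0, 1, 0, 1] (Or.inl rfl)
    ![2, 0, 1, 0, 2] (Or.inl rfl)
  let S : Finset (Equiv.Perm (Fin N)) := univ.filter (fun σ => Spells w σ)
  have hS : S.card ≤ T := hT hw S (fun σ hσ => (mem_filter.1 hσ).2)
  obtain ⟨σ, hσ, hs⟩ := hA ((S : Set (Equiv.Perm (Fin N))))ᶜ (by
    have h3 := ncard_compl ((S : Set (Equiv.Perm (Fin N))))
    rw [Set.ncard_coe_finset] at h3
    change N.factorial ≤ _ + q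
    omega)
  exact hσ (by
    rw [mem_coe, mem_filter]
    exact ⟨mem_univ _, hs⟩)

end Pool.Agent.Work.MP_8eaa9c_co.Thr
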